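import Pool.Agent.P.MP_79f629_co.SFinal

set_option autoImplicit false

open Filter Topology Pool.Agent.P.MP_79f629_co

namespace Pool.Agent.Results.MP_79f629_co.SecondOrder

theorem result : ∃ c : ℝ,
    HasSum (fun k : ℕ => (Nat.card {π : Equiv.Perm (Fin (2 * k + 3)) //
      (SimpleGraph.fromRel Bump).Reachable 1 π ∧
        ((List.ofFn π).map Fin.val).drop (k + 1) = List.range' 1 k ++ [0, k + 1]} : ℝ) /
      ((k + 1).factorial : ℝ)) c ∧
    Tendsto (fun n : ℕ => (n : ℝ) * ((n : ℝ) *
      ((Nat.card {π : Equiv.Perm (Fin n) // (SimpleGraph.fromRel Bump).Reachable 1 π} : ℝ) /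
        (n.factorial : ℝ)) - 1)) atTop (𝓝 (1 + c)) := by
  simp only [card_eq, Second.card_ref]
  exact Second.second

/-- The question as posed: the limit exists and equals one. -/
theorem posed : Tendsto (fun n : ℕ => (n : ℝ) *
    ((Nat.card {π : Equiv.Perm (Fin n) // (SimpleGraph.fromRel Bump).Reachable 1 π} : ℝ) /
      (n.factorial : ℝ))) atTop (𝓝 1) := by
  obtain ⟨c, -, h⟩ := result
  have t := (h.mul (tendsto_const_div_atTop_nhds_zero_nat (1 : ℝ))).add_const 1
  rw [mul_zero, zero_add] at t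
  refine t.congr' ((eventually_gt_atTop 0).mono fun n hn => ?_)
  have : (n : ℝ) ≠ 0 := by positivity
  field_simp
  ring

end Pool.Agent.Results.MP_79f629_co.SecondOrder
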